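import Mathlib

set_option autoImplicit false
set_option linter.unusedSectionVars false

namespace Pool.Agent.V1174.SerreA

open Finset

/-- A finite simplicial complex with vertices in `V`: a set of finite subsets of `V` closed under
taking subsets (the empty set of faces, the void complex, is allowed). -/
structure Cx (V : Type*) where
  /-- the faces -/
  faces : Set (Finset V)
  down : ∀ {s t : Finset V}, s ∈ faces → t ⊆ s → t ∈ faces

variable {V : Type*} [Fintype V] [LinearOrder V] {k : Type*} [Field k]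

/-- The link of `σ` in `Δ`. -/
def Cx.link (Δ : Cx V) (σ : Finset V) : Cx V where
  faces := {ρ | Disjoint ρ σ ∧ ρ ∪ σ ∈ Δ.faces}
  down := by
    rintro s t ⟨h1, h2⟩ hts
    exact ⟨Finset.disjoint_of_subset_left hts h1, Δ.down h2 (Finset.union_subset_union_left hts)⟩

/-- The sign `(-1)^#{u ∈ s : u < v}`. -/
def eps (k : Type*) [Field k] (v : V) (s : Finset V) : k := (-1) ^ (s.filter (· < v)).card

/-- The boundary map on chains: `(∂c)(s) = ∑_{v ∉ s} ± c(s ∪ {v})`. -/
def bd (c : Finset V → k) (s : Finset V) : k := ∑ v ∈ sᶜ, eps k v s * c (insert v s)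

/-- `c` is a chain of `Γ` supported on faces with exactly `j` elements
(i.e. a simplicial chain of degree `j - 1`). -/
def IsChain (Γ : Cx V) (j : ℕ) (c : Finset V → k) : Prop :=
  ∀ s, c s ≠ 0 → s ∈ Γ.faces ∧ s.card = j

/-- The reduced homology of `Γ` over `k` in degree `j - 1` vanishes. -/
def Acyc (k : Type*) [Field k] (Γ : Cx V) (j : ℕ) : Prop :=
  ∀ c : Finset V → k, IsChain Γ j c → bd c = 0 → ∃ b : Finset V → k, IsChain Γ (j + 1) b ∧ bd b = c

theorem eps_insert {v : V} {s : Finset V} (hv : v ∉ s) (u : V) :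
    eps k u (insert v s) = eps k u s * (if v < u then -1 else 1) := by
  unfold eps
  rw [Finset.filter_insert]
  split_ifs with h
  · rw [Finset.card_insert_of_notMem (by simp [hv]), pow_succ]
  · rw [mul_one]

theorem eps_sq (v : V) (s : Finset V) : eps k v s * eps k v s = 1 := by
  unfold eps
  rw [← mul_pow]; simp

theorem bd_bd (c : Finset V → k) : bd (bd c) = 0 := by
  funext s
  unfold bd
  simp only [Finset.mul_sum, Pi.zero_apply]
  rw [Finset.sum_sigma']
  refine Finset.sum_involution (fun x _ => ⟨x.2, x.1⟩) ?_ ?_ ?_ ?_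
  · rintro ⟨v, u⟩ h
    simp only [Finset.mem_sigma, Finset.mem_compl, Finset.mem_insert, not_or] at h
    obtain ⟨hv, huv, hu⟩ := h
    have e : insert v (insert u s) = insert u (insert v s) := Finset.insert_comm v u s
    show eps k v s * (eps k u (insert v s) * c (insert u (insert v s))) +
      eps k u s * (eps k v (insert u s) * c (insert v (insert u s))) = 0
    rw [e, eps_insert hv, eps_insert hu]
    rcases lt_or_gt_of_ne huv with h | h
    · rw [if_neg (not_lt.2 h.le), if_pos h]; ring
    · rw [if_pos h, if_neg (not_lt.2 h.le)]; ring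
  · rintro ⟨v, u⟩ h _ heq
    simp only [Finset.mem_sigma, Finset.mem_compl, Finset.mem_insert, not_or] at h
    have : u = v := congrArg Sigma.fst heq
    exact h.2.1 this
  · rintro ⟨v, u⟩ h
    simp only [Finset.mem_sigma, Finset.mem_compl, Finset.mem_insert, not_or] at h ⊢
    exact ⟨h.2.2, fun h' => h.2.1 h'.symm, h.1⟩
  · rintro ⟨v, u⟩ h
    rfl

/-- sign of the shuffle of `τ` and `ρ` -/
def mu (k : Type*) [Field k] (τ ρ : Finset V) : k := ∏ b ∈ ρ, (-1) ^ (τ.filter (b < ·)).card

theorem mu_insert {v : V} {τ ρ : Finset V} (hv : v ∉ ρ) :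
    mu k τ (insert v ρ) = (-1) ^ (τ.filter (v < ·)).card * mu k τ ρ := by
  unfold mu
  rw [Finset.prod_insert hv]

theorem mu_sq (τ ρ : Finset V) : mu k τ ρ * mu k τ ρ = 1 := by
  unfold mu
  rw [← Finset.prod_mul_distrib]
  apply Finset.prod_eq_one
  intro b _
  rw [← mul_pow]; simp

theorem eps_union {v : V} {τ ρ : Finset V} (h : Disjoint τ ρ) :
    eps k v (τ ∪ ρ) = (-1) ^ (τ.filter (· < v)).card * eps k v ρ := by
  unfold eps
  rw [Finset.filter_union, Finset.card_union_of_disjoint, pow_add]
  exact Finset.disjoint_filter_filter h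

theorem card_split {v : V} {τ : Finset V} (hv : v ∉ τ) :
    (τ.filter (· < v)).card + (τ.filter (v < ·)).card = τ.card := by
  rw [← Finset.card_union_of_disjoint, ← Finset.filter_or]
  · congr 1
    apply Finset.filter_true_of_mem
    intro x hx
    exact lt_or_gt_of_ne (fun h => hv (h ▸ hx))
  · rw [Finset.disjoint_filter]
    intro x _ h1 h2
    exact lt_asymm h1 h2

/-- contraction of a chain to the link of `τ` -/
def res (τ : Finset V) (w : Finset V → k) (ρ : Finset V) : k :=
  if Disjoint ρ τ then mu k τ ρ * w (τ ∪ ρ) else 0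

theorem bd_res {τ ρ : Finset V} (w : Finset V → k) (h : Disjoint ρ τ) :
    bd (res τ w) ρ = (-1) ^ τ.card * mu k τ ρ * bd w (τ ∪ ρ) := by
  unfold bd
  rw [Finset.mul_sum]
  symm
  apply Finset.sum_subset_zero_on_sdiff
  · intro v hv
    simp only [Finset.mem_compl, Finset.mem_union, not_or] at hv ⊢
    exact hv.2
  · intro v hv
    simp only [Finset.mem_sdiff, Finset.mem_compl, Finset.mem_union, not_or, not_and, not_not] at hv
    have hvτ : v ∈ τ := by
      by_contra hn
      exact hv.1 (hv.2 hn)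
    have : ¬ Disjoint (insert v ρ) τ := by
      rw [Finset.not_disjoint_iff]
      exact ⟨v, Finset.mem_insert_self _ _, hvτ⟩
    rw [res, if_neg this, mul_zero]
  · intro v hv
    simp only [Finset.mem_compl, Finset.mem_union, not_or] at hv
    have h1 : Disjoint (insert v ρ) τ := by
      rw [Finset.disjoint_insert_left]
      exact ⟨hv.1, h⟩
    rw [res, if_pos h1, mu_insert hv.2, eps_union h.symm]
    have e : τ ∪ insert v ρ = insert v (τ ∪ ρ) := by
      rw [Finset.union_insert]
    rw [e]
    have h2 : ((-1 : k)) ^ τ.card * (-1) ^ (τ.filter (· < v)).card =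
        (-1) ^ (τ.filter (v < ·)).card := by
      rw [← card_split hv.1, pow_add]
      have : ((-1 : k)) ^ (τ.filter (· < v)).card * (-1) ^ (τ.filter (· < v)).card = 1 := by
        rw [← mul_pow]; simp
      linear_combination ((-1 : k)) ^ (τ.filter (v < ·)).card * this
    linear_combination (mu k τ ρ * eps k v ρ * w (insert v (τ ∪ ρ))) * h2

theorem bd_res_of_not {τ ρ : Finset V} (w : Finset V → k) (h : ¬ Disjoint ρ τ) :
    bd (res τ w) ρ = 0 := by
  unfold bd
  apply Finset.sum_eq_zero
  intro v _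
  have : ¬ Disjoint (insert v ρ) τ := fun h' =>
    h (Finset.disjoint_of_subset_left (Finset.subset_insert _ _) h')
  rw [res, if_neg this, mul_zero]

/-- inverse of `res` -/
def ex (τ : Finset V) (b : Finset V → k) (s : Finset V) : k :=
  if τ ⊆ s then mu k τ (s \ τ) * b (s \ τ) else 0

theorem res_ex {τ : Finset V} {b : Finset V → k} (hb : ∀ ρ, b ρ ≠ 0 → Disjoint ρ τ) :
    res τ (ex τ b) = b := by
  funext ρ
  by_cases h : Disjoint ρ τ
  · rw [res, if_pos h, ex, if_pos Finset.subset_union_left]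
    have e : (τ ∪ ρ) \ τ = ρ := by
      rw [Finset.union_sdiff_left]
      exact Finset.sdiff_eq_self_of_disjoint h
    rw [e, ← mul_assoc, mu_sq, one_mul]
  · rw [res, if_neg h]
    by_contra hne
    exact h (hb ρ (Ne.symm hne))

/-- `A` is independent in `Γ`. -/
def Independent (Γ : Cx V) (A : Set (Finset V)) : Prop :=
  A ⊆ Γ.faces ∧ ∀ σ ∈ A, ∀ τ ∈ A, σ ≠ τ → σ ∪ τ ∉ Γ.faces

/-- The complex `Γ_A`: the faces of `Γ` that contain no member of `A`. -/
def Cx.remove (Γ : Cx V) (A : Set (Finset V)) : Cx V where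
  faces := {s | s ∈ Γ.faces ∧ ∀ τ ∈ A, ¬ τ ⊆ s}
  down := by
    rintro s t ⟨h1, h2⟩ hts
    exact ⟨Γ.down h1 hts, fun τ hτ h => h2 τ hτ (h.trans hts)⟩

/-- the key exactness lemma -/
theorem acyc_remove {Γ : Cx V} {A : Set (Finset V)} (hA : Independent Γ A) (j : ℕ)
    (h1 : Acyc k Γ j) (h2 : ∀ τ ∈ A, τ.card ≤ j + 1 → Acyc k (Γ.link τ) (j + 1 - τ.card)) :
    Acyc k (Γ.remove A) j := by
  classical
  intro z hz hz0
  obtain ⟨w, hw, hwz⟩ := h1 z (fun s hs => ⟨(hz s hs).1.1, (hz s hs).2⟩) hz0
  -- fill the relative cycles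
  have h3 : ∀ τ : Finset V, ∃ B : Finset V → k, τ ∈ A →
      (∀ s, B s ≠ 0 → s ∈ Γ.faces ∧ s.card = j + 2 ∧ τ ⊆ s) ∧
      ∀ ρ, Disjoint ρ τ → bd B (τ ∪ ρ) = (-1) ^ τ.card * w (τ ∪ ρ) := by
    intro τ
    by_cases hτ : τ ∈ A
    swap
    · exact ⟨0, fun h => absurd h hτ⟩
    by_cases hcard : τ.card ≤ j + 1
    · have hc : IsChain (Γ.link τ) (j + 1 - τ.card) (res τ w) := by
        intro ρ hρ
        have hd : Disjoint ρ τ := by
          by_contra hn
          exact hρ (by rw [res, if_neg hn])
        rw [res, if_pos hd] at hρ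
        have hwne : w (τ ∪ ρ) ≠ 0 := right_ne_zero_of_mul hρ
        obtain ⟨h4, h5⟩ := hw _ hwne
        refine ⟨⟨hd, by rw [Finset.union_comm]; exact h4⟩, ?_⟩
        rw [Finset.card_union_of_disjoint hd.symm] at h5
        omega
      have hc0 : bd (res τ w) = 0 := by
        funext ρ
        by_cases hd : Disjoint ρ τ
        · rw [bd_res w hd, hwz]
          have : z (τ ∪ ρ) = 0 := by
            by_contra hne
            exact (hz _ hne).1.2 τ hτ Finset.subset_union_left
          rw [this, mul_zero]; rfl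
        · rw [bd_res_of_not w hd]; rfl
      obtain ⟨b, hb, hbe⟩ := h2 τ hτ hcard _ hc hc0
      have hbd : ∀ ρ, b ρ ≠ 0 → Disjoint ρ τ := fun ρ hρ => (hb ρ hρ).1.1
      refine ⟨ex τ b, fun _ => ⟨?_, ?_⟩⟩
      · intro s hs
        have hτs : τ ⊆ s := by
          by_contra hn
          exact hs (by rw [ex, if_neg hn])
        rw [ex, if_pos hτs] at hs
        have hbne : b (s \ τ) ≠ 0 := right_ne_zero_of_mul hs
        obtain ⟨⟨h4, h4'⟩, h5⟩ := hb _ hbne
        have e : s \ τ ∪ τ = s := Finset.sdiff_union_of_subset hτs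
        rw [e] at h4'
        refine ⟨h4', ?_, hτs⟩
        have := Finset.card_sdiff_add_card_eq_card hτs
        omega
      · intro ρ hd
        have e1 := bd_res (ex τ b) hd
        rw [res_ex hbd, hbe, res, if_pos hd] at e1
        have e2 := mu_sq (k := k) τ ρ
        have e3 : ((-1 : k)) ^ τ.card * (-1) ^ τ.card = 1 := by rw [← mul_pow]; simp
        calc bd (ex τ b) (τ ∪ ρ) = ((-1 : k) ^ τ.card * (-1) ^ τ.card) *
              (mu k τ ρ * mu k τ ρ) * bd (ex τ b) (τ ∪ ρ) := by rw [e2, e3]; ring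
          _ = (-1) ^ τ.card * mu k τ ρ * ((-1) ^ τ.card * mu k τ ρ * bd (ex τ b) (τ ∪ ρ)) := by ring
          _ = (-1) ^ τ.card * mu k τ ρ * (mu k τ ρ * w (τ ∪ ρ)) := by rw [← e1]
          _ = (-1) ^ τ.card * (mu k τ ρ * mu k τ ρ) * w (τ ∪ ρ) := by ring
          _ = _ := by rw [e2, mul_one]
    · refine ⟨0, fun _ => ⟨fun s hs => absurd rfl hs, ?_⟩⟩
      intro ρ hd
      have hw0 : w (τ ∪ ρ) = 0 := by
        by_contra hne
        have := (hw _ hne).2
        rw [Finset.card_union_of_disjoint hd.symm] at this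
        omega
      rw [hw0, mul_zero]
      simp [bd]
  choose B hB using h3
  set S : Finset (Finset V) := Finset.univ.filter (· ∈ A) with hS
  have hSA : ∀ τ, τ ∈ S ↔ τ ∈ A := by intro τ; simp [hS]
  have bd_sum : ∀ (T : Finset (Finset V)) (f : Finset V → Finset V → k) (a : Finset V → k),
      bd (fun s => ∑ τ ∈ T, a τ * f τ s) = fun s => ∑ τ ∈ T, a τ * bd (f τ) s := by
    intro T f a
    funext s
    unfold bd
    simp only [Finset.mul_sum]
    rw [Finset.sum_comm]
    apply Finset.sum_congr rfl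
    intro τ _
    apply Finset.sum_congr rfl
    intro v _
    ring
  set C : Finset V → k := fun s => ∑ τ ∈ S, (-1) ^ τ.card * bd (B τ) s with hC
  have hbdC : bd C = 0 := by
    rw [hC, bd_sum]
    funext s
    apply Finset.sum_eq_zero
    intro τ _
    rw [bd_bd]; simp
  refine ⟨fun s => w s - C s, ?_, ?_⟩
  · intro s hs
    -- values at faces containing some `τ`
    have hkey : ∀ τ ∈ A, τ ⊆ s → s ∈ Γ.faces → w s - C s = 0 := by
      intro τ hτ hτs hsf
      have hCs : C s = (-1) ^ τ.card * bd (B τ) s := by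
        rw [hC]
        apply Finset.sum_eq_single_of_mem τ ((hSA τ).2 hτ)
        intro τ' hτ' hne
        have hτ'A := (hSA τ').1 hτ'
        have : bd (B τ') s = 0 := by
          unfold bd
          apply Finset.sum_eq_zero
          intro v _
          have : B τ' (insert v s) = 0 := by
            by_contra hn
            obtain ⟨h4, _, h5⟩ := (hB τ' hτ'A).1 _ hn
            refine hA.2 τ' hτ'A τ hτ hne (Γ.down h4 ?_)
            exact Finset.union_subset h5 (hτs.trans (Finset.subset_insert _ _))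
          rw [this, mul_zero]
        rw [this, mul_zero]
      have h5 := (hB τ hτ).2 (s \ τ) Finset.sdiff_disjoint
      have e : τ ∪ s \ τ = s := Finset.union_sdiff_of_subset hτs
      rw [e] at h5
      rw [hCs, h5, ← mul_assoc]
      have e3 : ((-1 : k)) ^ τ.card * (-1) ^ τ.card = 1 := by rw [← mul_pow]; simp
      rw [e3, one_mul, sub_self]
    have hsf : s ∈ Γ.faces ∧ s.card = j + 1 := by
      by_cases hw0 : w s = 0
      · have hCne : C s ≠ 0 := by
          intro h
          apply hs
          show w s - C s = 0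
          rw [hw0, h, sub_zero]
        obtain ⟨τ, hτ, hne⟩ := Finset.exists_ne_zero_of_sum_ne_zero hCne
        have hb0 : bd (B τ) s ≠ 0 := right_ne_zero_of_mul hne
        obtain ⟨v, hv, hne'⟩ := Finset.exists_ne_zero_of_sum_ne_zero hb0
        have hbv : B τ (insert v s) ≠ 0 := right_ne_zero_of_mul hne'
        obtain ⟨h4, h5, _⟩ := (hB τ ((hSA τ).1 hτ)).1 _ hbv
        have hvs : v ∉ s := by simpa using hv
        rw [Finset.card_insert_of_notMem hvs] at h5
        exact ⟨Γ.down h4 (Finset.subset_insert _ _), by omega⟩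
      · exact hw s hw0
    refine ⟨⟨hsf.1, fun τ hτ hτs => ?_⟩, hsf.2⟩
    exact hs (hkey τ hτ hτs hsf.1)
  · have : bd (fun s => w s - C s) = fun s => bd w s - bd C s := by
      funext s
      unfold bd
      rw [← Finset.sum_sub_distrib]
      apply Finset.sum_congr rfl
      intro v _
      ring
    rw [this, hbdC, hwz]
    funext s; simp

end Pool.Agent.V1174.SerreA
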