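import Pool.Agent.V1174.SerreA.Chain

set_option autoImplicit false
set_option linter.unusedSectionVars false

namespace Pool.Agent.V1174.SerreA

open Finset

variable {V : Type*} [Fintype V] [LinearOrder V] {k : Type*} [Field k]

theorem Cx.ext' {Γ Δ : Cx V} (h : ∀ s, s ∈ Γ.faces ↔ s ∈ Δ.faces) : Γ = Δ := by
  cases Γ; cases Δ
  congr
  ext s; exact h s

/-- `F` is a facet (maximal face) of `Δ`. -/
def IsFacet (Δ : Cx V) (F : Finset V) : Prop := F ∈ Δ.faces ∧ ∀ G ∈ Δ.faces, F ⊆ G → F = G

/-- homological form of Serre's condition, indexed by cardinalities -/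
def SerreJ (k : Type*) [Field k] (ℓ : ℕ) (Δ : Cx V) : Prop :=
  ∀ σ ∈ Δ.faces, ∀ j : ℕ, j < ℓ → (∃ ρ ∈ (Δ.link σ).faces, j < ρ.card) → Acyc k (Δ.link σ) j

theorem exists_facet {Δ : Cx V} {s : Finset V} (hs : s ∈ Δ.faces) : ∃ F, IsFacet Δ F ∧ s ⊆ F := by
  obtain ⟨F, h1, h2⟩ := (Set.toFinite Δ.faces).exists_le_maximal hs
  exact ⟨F, ⟨h2.1, fun G hG hFG => le_antisymm hFG (h2.2 hG hFG)⟩, h1⟩

theorem eps_empty (v : V) : eps k v (∅ : Finset V) = 1 := by simp [eps]

theorem acyc_zero {Γ : Cx V} (h : ∃ ρ ∈ Γ.faces, 0 < ρ.card) : Acyc k Γ 0 := by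
  intro c hc _
  obtain ⟨ρ, hρ, hpos⟩ := h
  obtain ⟨v, hv⟩ := Finset.card_pos.1 hpos
  have hvf : {v} ∈ Γ.faces := Γ.down hρ (Finset.singleton_subset_iff.2 hv)
  refine ⟨fun s => if s = {v} then c ∅ else 0, ?_, ?_⟩
  · intro s hs
    have : s = {v} := by
      by_contra hn
      exact hs (by simp [hn])
    subst this
    exact ⟨hvf, by simp⟩
  · funext s
    unfold bd
    by_cases hs : s = ∅
    · subst hs
      rw [Finset.sum_eq_single v]
      · simp [eps_empty]
      · intro u _ hu
        have : insert u (∅ : Finset V) ≠ {v} := by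
          simpa using hu
        simp [hu]
      · intro h; simp at h
    · have hc0 : c s = 0 := by
        by_contra hne
        exact hs (Finset.card_eq_zero.1 (hc s hne).2)
      rw [hc0]
      apply Finset.sum_eq_zero
      intro u hu
      have hus : u ∉ s := by simpa using hu
      have : insert u s ≠ {v} := by
        intro h
        have h1 := congrArg Finset.card h
        rw [Finset.card_insert_of_notMem hus, Finset.card_singleton] at h1
        exact hs (Finset.card_eq_zero.1 (by omega))
      show eps k u s * (if insert u s = {v} then c ∅ else 0) = 0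
      rw [if_neg this, mul_zero]

theorem pairing_zero {Γ : Cx V} {b : Finset V → k} (hb : IsChain Γ 2 b) (f : V → k)
    (hf : ∀ u w, u ≠ w → ({u, w} : Finset V) ∈ Γ.faces → f u = f w) :
    ∑ w : V, f w * bd b {w} = 0 := by
  unfold bd
  simp only [Finset.mul_sum]
  rw [Finset.sum_sigma']
  refine Finset.sum_involution (fun x _ => ⟨x.2, x.1⟩) ?_ ?_ ?_ ?_
  · rintro ⟨w, x⟩ h
    simp only [Finset.mem_sigma, Finset.mem_univ, true_and, Finset.mem_compl,
      Finset.mem_singleton] at h
    show f w * (eps k x {w} * b (insert x {w})) + f x * (eps k w {x} * b (insert w {x})) = 0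
    have e : (insert w {x} : Finset V) = insert x {w} := Finset.pair_comm w x
    rw [e]
    by_cases hb0 : b (insert x {w}) = 0
    · rw [hb0]; ring
    · have h1 := (hb _ hb0).1
      have h2 := hf x w h h1
      rw [h2]
      have e1 : eps k x ({w} : Finset V) = if w < x then -1 else 1 := by
        have := eps_insert (k := k) (Finset.notMem_empty w) x
        rw [eps_empty, one_mul] at this
        simpa using this
      have e2 : eps k w ({x} : Finset V) = if x < w then -1 else 1 := by
        have := eps_insert (k := k) (Finset.notMem_empty x) w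
        rw [eps_empty, one_mul] at this
        simpa using this
      rw [e1, e2]
      rcases lt_or_gt_of_ne h with h | h
      · rw [if_neg (not_lt.2 h.le), if_pos h]; ring
      · rw [if_pos h, if_neg (not_lt.2 h.le)]; ring
  · rintro ⟨w, x⟩ h _ heq
    simp only [Finset.mem_sigma, Finset.mem_univ, true_and, Finset.mem_compl,
      Finset.mem_singleton] at h
    exact h (congrArg Sigma.fst heq)
  · rintro ⟨w, x⟩ h
    simp only [Finset.mem_sigma, Finset.mem_univ, true_and, Finset.mem_compl,
      Finset.mem_singleton] at h ⊢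
    exact fun h' => h h'.symm
  · rintro ⟨w, x⟩ h
    rfl

theorem link_mem_iff {Δ : Cx V} {σ ρ : Finset V} :
    ρ ∈ (Δ.link σ).faces ↔ Disjoint ρ σ ∧ ρ ∪ σ ∈ Δ.faces := Iff.rfl

theorem sdiff_mem_link {Δ : Cx V} {σ F : Finset V} (hF : F ∈ Δ.faces) (h : σ ⊆ F) :
    F \ σ ∈ (Δ.link σ).faces := by
  refine ⟨Finset.sdiff_disjoint, ?_⟩
  rw [Finset.sdiff_union_of_subset h]; exact hF

/-- complexes satisfying `(S_2)` are pure -/
theorem pure_aux {Δ : Cx V} (hS : SerreJ k 2 Δ) (n : ℕ) : ∀ σ ∈ Δ.faces,
    Fintype.card V ≤ n + σ.card → ∀ F F' : Finset V, IsFacet Δ F → IsFacet Δ F' → σ ⊆ F → σ ⊆ F' →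
      F.card = F'.card := by
  classical
  induction n with
  | zero =>
    intro σ _ hn F F' _ _ h1 h2
    have e : σ = Finset.univ := by
      rw [← Finset.card_eq_iff_eq_univ]
      exact le_antisymm (Finset.card_le_univ σ) (by omega)
    subst e
    rw [Finset.univ_subset_iff.1 h1, Finset.univ_subset_iff.1 h2]
  | succ n ih =>
    intro σ hσ hn F F' hF hF' h1 h2
    by_cases e1 : σ = F
    · subst e1
      rw [hF.2 F' hF'.1 h2]
    by_cases e2 : σ = F'
    · subst e2
      rw [hF'.2 F hF.1 h1]
    obtain ⟨u, hu, huσ⟩ := Finset.exists_of_ssubset (lt_of_le_of_ne h1 e1)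
    obtain ⟨v, hv, hvσ⟩ := Finset.exists_of_ssubset (lt_of_le_of_ne h2 e2)
    have hIH : ∀ w, w ∉ σ → ∀ K K' : Finset V, IsFacet Δ K → IsFacet Δ K' → insert w σ ⊆ K →
        insert w σ ⊆ K' → K.card = K'.card := by
      intro w hw K K' hK hK' h3 h4
      refine ih (insert w σ) (Δ.down hK.1 h3) ?_ K K' hK hK' h3 h4
      rw [Finset.card_insert_of_notMem hw]; omega
    by_cases huv : u = v
    · subst huv
      exact hIH u huσ F F' hF hF' (Finset.insert_subset hu h1) (Finset.insert_subset hv h2)
    by_cases hex : ∃ ρ ∈ (Δ.link σ).faces, 1 < ρ.card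
    swap
    · push Not at hex
      have h3 := hex _ (sdiff_mem_link hF.1 h1)
      have h4 := hex _ (sdiff_mem_link hF'.1 h2)
      have h5 : 0 < (F \ σ).card := Finset.card_pos.2 ⟨u, Finset.mem_sdiff.2 ⟨hu, huσ⟩⟩
      have h6 : 0 < (F' \ σ).card := Finset.card_pos.2 ⟨v, Finset.mem_sdiff.2 ⟨hv, hvσ⟩⟩
      have h7 := Finset.card_sdiff_add_card_eq_card h1
      have h8 := Finset.card_sdiff_add_card_eq_card h2
      omega
    · have hac := hS σ hσ 1 (by norm_num) hex
      let R : V → Prop := fun w => ∃ K, IsFacet Δ K ∧ insert w σ ⊆ K ∧ K.card = F.card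
      by_cases hRv : R v
      · obtain ⟨K, hK, h3, h4⟩ := hRv
        rw [← h4]
        exact hIH v hvσ K F' hK hF' h3 (Finset.insert_subset hv h2)
      exfalso
      let f : V → k := fun w => if R w then 1 else 0
      have hRu : R u := ⟨F, hF, Finset.insert_subset hu h1, rfl⟩
      let c : Finset V → k := fun s => if s = {u} then 1 else if s = {v} then -1 else 0
      have huv' : ({v} : Finset V) ≠ {u} := fun h => huv (Finset.singleton_injective h).symm
      have hcc : IsChain (Δ.link σ) 1 c := by
        intro s hs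
        by_cases h3 : s = {u}
        · subst h3
          refine ⟨⟨by simpa using huσ, ?_⟩, by simp⟩
          refine Δ.down hF.1 (Finset.union_subset (by simpa using hu) h1)
        · by_cases h4 : s = {v}
          · subst h4
            refine ⟨⟨by simpa using hvσ, ?_⟩, by simp⟩
            refine Δ.down hF'.1 (Finset.union_subset (by simpa using hv) h2)
          · exact absurd (by simp [c, h3, h4]) hs
      have hc0 : bd c = 0 := by
        funext s
        unfold bd
        by_cases hs : s = ∅
        · subst hs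
          have : ∀ x ∈ (∅ : Finset V)ᶜ, eps k x ∅ * c (insert x ∅) =
              (if x = u then 1 else 0) - (if x = v then 1 else 0) := by
            intro x _
            rw [eps_empty, one_mul]
            show (if insert x (∅ : Finset V) = {u} then (1 : k) else
              if insert x (∅ : Finset V) = {v} then -1 else 0) = _
            have e : (insert x (∅ : Finset V)) = {x} := rfl
            rw [e]
            by_cases hxu : x = u
            · subst hxu
              simp [huv]
            · by_cases hxv : x = v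
              · subst hxv
                simp [hxu]
              · simp [hxu, hxv]
          rw [Finset.sum_congr rfl this, Finset.sum_sub_distrib]
          simp
        · apply Finset.sum_eq_zero
          intro x hx
          have hxs : x ∉ s := by simpa using hx
          have hne : ∀ y : V, insert x s ≠ {y} := by
            intro y h
            have h1 := congrArg Finset.card h
            rw [Finset.card_insert_of_notMem hxs, Finset.card_singleton] at h1
            exact hs (Finset.card_eq_zero.1 (by omega))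
          show eps k x s * (if insert x s = {u} then (1 : k) else
            if insert x s = {v} then -1 else 0) = 0
          rw [if_neg (hne u), if_neg (hne v), mul_zero]
      obtain ⟨b, hb, hbc⟩ := hac c hcc hc0
      have hpair := pairing_zero hb f (by
        intro x w hxw hmem
        obtain ⟨K, hK, hKs⟩ := exists_facet hmem.2
        have hxσ : x ∉ σ := fun h => Finset.disjoint_left.1 hmem.1 (by simp) h
        have hwσ : w ∉ σ := fun h => Finset.disjoint_left.1 hmem.1 (by simp) h
        have hxK : insert x σ ⊆ K := by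
          refine Finset.Subset.trans ?_ hKs
          intro y hy
          rcases Finset.mem_insert.1 hy with rfl | hy
          · simp
          · simp [hy]
        have hwK : insert w σ ⊆ K := by
          refine Finset.Subset.trans ?_ hKs
          intro y hy
          rcases Finset.mem_insert.1 hy with rfl | hy
          · simp
          · simp [hy]
        have hiff : R x ↔ R w := by
          constructor
          · rintro ⟨K', h3, h4, h5⟩
            exact ⟨K, hK, hwK, by rw [← h5]; exact hIH x hxσ K K' hK h3 hxK h4⟩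
          · rintro ⟨K', h3, h4, h5⟩
            exact ⟨K, hK, hxK, by rw [← h5]; exact hIH w hwσ K K' hK h3 hwK h4⟩
        show (if R x then (1 : k) else 0) = if R w then 1 else 0
        simp only [hiff])
      rw [hbc] at hpair
      have : ∀ w : V, f w * c {w} = (if w = u then 1 else 0) := by
        intro w
        show (if R w then (1 : k) else 0) * (if ({w} : Finset V) = {u} then (1 : k) else
              if ({w} : Finset V) = {v} then -1 else 0) = _
        by_cases hwu : w = u
        · subst hwu; simp [hRu]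
        · by_cases hwv : w = v
          · subst hwv; simp [hRv, hwu]
          · simp [hwu, hwv]
      simp [this] at hpair

theorem pure_of_serre {Δ : Cx V} (hS : SerreJ k 2 Δ) {F F' : Finset V} (hF : IsFacet Δ F)
    (hF' : IsFacet Δ F') : F.card = F'.card :=
  pure_aux hS (Fintype.card V) ∅ (Δ.down hF.1 (Finset.empty_subset _)) (by simp) F F' hF hF'
    (Finset.empty_subset _) (Finset.empty_subset _)

theorem SerreJ.mono {Δ : Cx V} {ℓ m : ℕ} (h : SerreJ k ℓ Δ) (hm : m ≤ ℓ) : SerreJ k m Δ :=
  fun σ hσ j hj hex => h σ hσ j (hj.trans_le hm) hex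

/-- `A` is excellent in `Δ`. -/
def Excellent (Δ : Cx V) (A : Set (Finset V)) : Prop :=
  Independent Δ A ∧ ∀ F, IsFacet Δ F → ∃ σ ∈ A, σ ⊆ F

theorem mainJ {Δ : Cx V} {A : Set (Finset V)} {ℓ : ℕ} (hS : SerreJ k ℓ Δ) (hA : Excellent Δ A) :
    SerreJ k ℓ (Δ.remove A) := by
  classical
  intro σ hσ j hj hex
  rcases Nat.eq_zero_or_pos j with rfl | hjpos
  · exact acyc_zero hex
  obtain ⟨ρ₀, hρ₀, hcard₀⟩ := hex
  have hpure : ∀ {F F' : Finset V}, IsFacet Δ F → IsFacet Δ F' → F.card = F'.card :=
    fun hF hF' => pure_of_serre (hS.mono (by omega)) hF hF'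
  set A' : Set (Finset V) := {ρ | ∃ τ ∈ A, τ ∪ σ ∈ Δ.faces ∧ ρ = τ \ σ} with hA'
  have hlink : (Δ.remove A).link σ = (Δ.link σ).remove A' := by
    apply Cx.ext'
    intro s
    constructor
    · rintro ⟨h1, h2, h3⟩
      refine ⟨⟨h1, h2⟩, ?_⟩
      rintro _ ⟨τ, hτ, h4, rfl⟩ h5
      apply h3 τ hτ
      intro x hx
      by_cases hxσ : x ∈ σ
      · exact Finset.mem_union_right _ hxσ
      · exact Finset.mem_union_left _ (h5 (Finset.mem_sdiff.2 ⟨hx, hxσ⟩))
    · rintro ⟨⟨h1, h2⟩, h3⟩
      refine ⟨h1, h2, ?_⟩
      intro τ hτ h4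
      refine h3 (τ \ σ) ⟨τ, hτ, Δ.down h2 (Finset.union_subset h4 Finset.subset_union_right), rfl⟩ ?_
      intro x hx
      rw [Finset.mem_sdiff] at hx
      rcases Finset.mem_union.1 (h4 hx.1) with h | h
      · exact h
      · exact absurd h hx.2
  rw [hlink]
  have hind : Independent (Δ.link σ) A' := by
    constructor
    · rintro _ ⟨τ, hτ, h4, rfl⟩
      exact ⟨Finset.sdiff_disjoint, by rwa [Finset.sdiff_union_self_eq_union]⟩
    · rintro _ ⟨τ, hτ, h4, rfl⟩ _ ⟨τ', hτ', h4', rfl⟩ hne h5
      have hττ' : τ ≠ τ' := by rintro rfl; exact hne rfl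
      refine hA.1.2 τ hτ τ' hτ' hττ' (Δ.down h5.2 ?_)
      intro x hx
      rw [Finset.mem_union] at hx
      simp only [Finset.mem_union, Finset.mem_sdiff]
      by_cases hxσ : x ∈ σ
      · exact Or.inr hxσ
      · rcases hx with h | h
        · exact Or.inl (Or.inl ⟨h, hxσ⟩)
        · exact Or.inl (Or.inr ⟨h, hxσ⟩)
  refine acyc_remove hind j ?_ ?_
  · exact hS σ hσ.1 j hj ⟨ρ₀, ⟨hρ₀.1, hρ₀.2.1⟩, hcard₀⟩
  · rintro _ ⟨τ, hτ, h4, rfl⟩ hle
    have hll : (Δ.link σ).link (τ \ σ) = Δ.link (τ ∪ σ) := by
      apply Cx.ext'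
      intro s
      constructor
      · rintro ⟨h5, h6, h7⟩
        refine ⟨?_, ?_⟩
        · rw [Finset.disjoint_union_right]
          have h8 : Disjoint s σ := Finset.disjoint_of_subset_left Finset.subset_union_left h6
          refine ⟨?_, h8⟩
          rw [Finset.disjoint_left]
          intro x hx hxτ
          by_cases hxσ : x ∈ σ
          · exact Finset.disjoint_left.1 h8 hx hxσ
          · exact Finset.disjoint_left.1 h5 hx (Finset.mem_sdiff.2 ⟨hxτ, hxσ⟩)
        · rwa [Finset.union_assoc, Finset.sdiff_union_self_eq_union] at h7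
      · rintro ⟨h5, h6⟩
        rw [Finset.disjoint_union_right] at h5
        refine ⟨Finset.disjoint_of_subset_right Finset.sdiff_subset h5.1, ?_, ?_⟩
        · rw [Finset.disjoint_union_left]
          exact ⟨h5.2, Finset.sdiff_disjoint⟩
        · rwa [Finset.union_assoc, Finset.sdiff_union_self_eq_union]
    rw [hll]
    have hpos : 0 < (τ \ σ).card := by
      rw [Finset.card_pos, Finset.sdiff_nonempty]
      exact hσ.2 τ hτ
    refine hS (τ ∪ σ) h4 _ (by omega) ?_
    obtain ⟨F, hF, hFs⟩ := exists_facet h4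
    obtain ⟨K, hK, hKs⟩ := exists_facet hρ₀.2.1
    refine ⟨F \ (τ ∪ σ), sdiff_mem_link hF.1 hFs, ?_⟩
    have e1 := Finset.card_sdiff_add_card_eq_card hFs
    have e2 : (τ ∪ σ).card = (τ \ σ).card + σ.card := by
      rw [← Finset.card_union_of_disjoint Finset.sdiff_disjoint, Finset.sdiff_union_self_eq_union]
    have e3 : (ρ₀ ∪ σ).card = ρ₀.card + σ.card := Finset.card_union_of_disjoint hρ₀.1
    have e4 : (ρ₀ ∪ σ).card < K.card := by
      apply Finset.card_lt_card
      refine lt_of_le_of_ne hKs ?_
      intro h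
      obtain ⟨τ', hτ', h5⟩ := hA.2 K hK
      exact hρ₀.2.2 τ' hτ' (by rw [h]; exact h5)
    have e5 := hpure hF hK
    omega

end Pool.Agent.V1174.SerreA
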